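import Mathlib

/-!
# Mowing a thin convex hexagon: definitions
-/

namespace Pool.Agent.LawnZig

/-- The length of the polygonal curve `v 0, v 1, …, v m` (with `m` segments). -/
noncomputable def len (m : ℕ) (v : ℕ → ℂ) : ℝ :=
  ∑ i ∈ Finset.range m, dist (v i) (v (i + 1))

/-- Every point of `P` has distance at most `1` from the polygonal curve `v 0, …, v m`. -/
def Mows (P : Set ℂ) (m : ℕ) (v : ℕ → ℂ) : Prop :=
  ∀ z ∈ P, ∃ i < m, ∃ w ∈ segment ℝ (v i) (v (i + 1)), dist z w ≤ 1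

/-- Half of the height of the hexagon: `1 + 8 / N ^ 2`. -/
def hh (N : ℕ) : ℚ := 1 + 8 / (N : ℚ) ^ 2

/-- Half of the width of the hexagon: `5 / 2 - 528 / N ^ 2`. -/
def hw (N : ℕ) : ℚ := 5 / 2 - 528 / (N : ℚ) ^ 2

/-- The six vertices of the hexagon, in cyclic order (all coordinates are rational). -/
def vert (N : ℕ) : Fin 6 → ℚ × ℚ :=
  ![(hw N, 0), (1 / 2, hh N), (-(1 / 2), hh N), (-(hw N), 0), (-(1 / 2), -(hh N)),
    (1 / 2, -(hh N))]

/-- The convex hexagon with these six vertices, as a closed region of the plane. -/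
def hexagon (N : ℕ) : Set ℂ :=
  convexHull ℝ (Set.range fun i => (⟨((vert N i).1 : ℝ), ((vert N i).2 : ℝ)⟩ : ℂ))

end Pool.Agent.LawnZig
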