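import Pool.Agent.LawnZig.Region

/-!
# Few segments do not suffice
-/

namespace Pool.Agent.LawnZig

open Finset

/-- variation of a real sequence -/
lemma var_bound (s : ℕ → ℝ) (m i j : ℕ) (hij : i ≤ j) (hj : j < m) (a b : ℝ)
    (ha : a ∈ Set.uIcc (s i) (s (i + 1))) (hb : b ∈ Set.uIcc (s j) (s (j + 1))) :
    |a - b| ≤ ∑ k ∈ range m, |s k - s (k + 1)| := by
  rcases Nat.eq_or_lt_of_le hij with h | h
  · subst h
    have h1 : |a - b| ≤ |s i - s (i + 1)| := by
      rw [abs_sub_comm (s i)]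
      exact Set.abs_sub_le_of_uIcc_subset_uIcc (Set.uIcc_subset_uIcc hb ha) |>.trans (le_refl _)
    exact h1.trans (Finset.single_le_sum (f := fun k => |s k - s (k + 1)|)
      (fun _ _ => abs_nonneg _) (mem_range.2 hj))
  · have h1 : |a - s (i + 1)| ≤ |s i - s (i + 1)| := by
      rw [abs_sub_comm (s i), abs_sub_comm a]
      rw [abs_sub_comm]
      have := Set.abs_sub_right_of_mem_uIcc ha
      rw [abs_sub_comm] at this
      exact this
    have h2 : |s j - b| ≤ |s j - s (j + 1)| := by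
      have := Set.abs_sub_left_of_mem_uIcc hb
      rw [abs_sub_comm, abs_sub_comm (s j)]
      exact this
    have h3 : |s (i + 1) - s j| ≤ ∑ k ∈ Ico (i + 1) j, |s k - s (k + 1)| := by
      have := dist_le_Ico_sum_dist s h
      simpa [Real.dist_eq] using this
    have h4 : |a - b| ≤ |a - s (i + 1)| + |s (i + 1) - s j| + |s j - b| := by
      calc |a - b| = |(a - s (i + 1)) + (s (i + 1) - s j) + (s j - b)| := by ring_nf
        _ ≤ |(a - s (i + 1)) + (s (i + 1) - s j)| + |s j - b| := abs_add_le _ _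
        _ ≤ |a - s (i + 1)| + |s (i + 1) - s j| + |s j - b| := by
          gcongr; exact abs_add_le _ _
    have h5 : ∑ k ∈ Ico i (j + 1), |s k - s (k + 1)|
        = |s i - s (i + 1)| + ∑ k ∈ Ico (i + 1) j, |s k - s (k + 1)| + |s j - s (j + 1)| := by
      rw [Finset.sum_Ico_succ_top hij, Finset.sum_eq_sum_Ico_succ_bot h]
    have h6 : ∑ k ∈ Ico i (j + 1), |s k - s (k + 1)| ≤ ∑ k ∈ range m, |s k - s (k + 1)| := by
      apply Finset.sum_le_sum_of_subset_of_nonneg
      · intro k hk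
        simp at hk ⊢
        omega
      · intros; exact abs_nonneg _
    linarith

lemma var_bound' (s : ℕ → ℝ) (m i j : ℕ) (hi : i < m) (hj : j < m) (a b : ℝ)
    (ha : a ∈ Set.uIcc (s i) (s (i + 1))) (hb : b ∈ Set.uIcc (s j) (s (j + 1))) :
    |a - b| ≤ ∑ k ∈ range m, |s k - s (k + 1)| := by
  rcases le_total i j with h | h
  · exact var_bound s m i j h hj a b ha hb
  · rw [abs_sub_comm]
    exact var_bound s m j i h hi b a hb ha

/-- Minkowski for polygonal curves -/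
lemma minkowski (m : ℕ) (v : ℕ → ℂ) :
    (∑ k ∈ range m, |(v k).re - (v (k + 1)).re|) ^ 2
      + (∑ k ∈ range m, |(v k).im - (v (k + 1)).im|) ^ 2 ≤ (len m v) ^ 2 := by
  set z : ℕ → ℂ := fun k => ⟨|(v k).re - (v (k + 1)).re|, |(v k).im - (v (k + 1)).im|⟩ with hz
  have h1 : ‖∑ k ∈ range m, z k‖ ≤ ∑ k ∈ range m, ‖z k‖ := norm_sum_le _ _
  have h2 : ∀ k, ‖z k‖ = dist (v k) (v (k + 1)) := by
    intro k
    rw [Complex.dist_eq, Complex.norm_def, Complex.norm_def, Complex.normSq_apply,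
      Complex.normSq_apply]
    congr 1
    simp only [hz, Complex.sub_re, Complex.sub_im]
    rw [abs_mul_abs_self, abs_mul_abs_self]
  have h3 : ∑ k ∈ range m, ‖z k‖ = len m v := by
    unfold len
    exact Finset.sum_congr rfl fun k _ => h2 k
  rw [h3] at h1
  have h4 : ‖∑ k ∈ range m, z k‖ ^ 2 = (∑ k ∈ range m, |(v k).re - (v (k + 1)).re|) ^ 2
      + (∑ k ∈ range m, |(v k).im - (v (k + 1)).im|) ^ 2 := by
    rw [← Complex.normSq_eq_norm_sq, Complex.normSq_apply, Complex.re_sum, Complex.im_sum]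
    simp only [hz]
    ring
  rw [← h4]
  exact pow_le_pow_left₀ (norm_nonneg _) h1 2

lemma seg_re {a b w : ℂ} (h : w ∈ segment ℝ a b) : w.re ∈ Set.uIcc a.re b.re := by
  obtain ⟨c, d, hc, hd, hcd, rfl⟩ := h
  have : (c • a + d • b).re = c • a.re + d • b.re := by simp
  rw [this, ← segment_eq_uIcc]
  exact ⟨c, d, hc, hd, hcd, rfl⟩

lemma seg_im {a b w : ℂ} (h : w ∈ segment ℝ a b) : w.im ∈ Set.uIcc a.im b.im := by
  obtain ⟨c, d, hc, hd, hcd, rfl⟩ := h
  have : (c • a + d • b).im = c • a.im + d • b.im := by simp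
  rw [this, ← segment_eq_uIcc]
  exact ⟨c, d, hc, hd, hcd, rfl⟩

/-- an interval without abscissas of vertices -/
lemma exists_gap (m : ℕ) (x : ℕ → ℝ) :
    ∃ u : ℝ, -(1 / 2) ≤ u ∧ u + 1 / ((m : ℝ) + 2) ≤ 1 / 2 ∧
      ∀ i ≤ m, ¬ (u < x i ∧ x i < u + 1 / ((m : ℝ) + 2)) := by
  by_contra hcon
  push Not at hcon
  have hm : (0 : ℝ) < (m : ℝ) + 2 := by positivity
  have h : ∀ j : Fin (m + 2), ∃ i : Fin (m + 1),
      -(1 / 2) + (j : ℝ) / ((m : ℝ) + 2) < x i ∧
        x i < -(1 / 2) + (j : ℝ) / ((m : ℝ) + 2) + 1 / ((m : ℝ) + 2) := by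
    intro j
    have hj : ((j : ℕ) : ℝ) ≤ m + 1 := by
      have := j.2
      exact_mod_cast Nat.lt_succ_iff.1 this
    obtain ⟨i, hi, h1, h2⟩ := hcon (-(1 / 2) + (j : ℝ) / ((m : ℝ) + 2))
      (by have : 0 ≤ ((j : ℕ) : ℝ) / ((m : ℝ) + 2) := by positivity
          linarith)
      (by
        have : ((j : ℕ) : ℝ) / ((m : ℝ) + 2) + 1 / ((m : ℝ) + 2) ≤ 1 := by
          rw [← add_div, div_le_one hm]
          linarith
        linarith)
    exact ⟨⟨i, Nat.lt_succ_iff.2 hi⟩, h1, h2⟩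
  choose f hf using h
  have hcard : Fintype.card (Fin (m + 1)) < Fintype.card (Fin (m + 2)) := by simp
  obtain ⟨a, b, hab, hfab⟩ := Fintype.exists_ne_map_eq_of_card_lt f hcard
  wlog hlt : a < b generalizing a b
  · exact this b a hab.symm hfab.symm (lt_of_le_of_ne (not_lt.1 hlt) hab.symm)
  have h1 := (hf a).2
  have h2 := (hf b).1
  rw [hfab] at h1
  have h3 : ((a : ℕ) : ℝ) + 1 ≤ ((b : ℕ) : ℝ) := by exact_mod_cast hlt
  have h4 : ((a : ℕ) : ℝ) / ((m : ℝ) + 2) + 1 / ((m : ℝ) + 2) ≤ ((b : ℕ) : ℝ) / ((m : ℝ) + 2) := by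
    rw [← add_div]
    exact div_le_div_of_nonneg_right h3 hm.le
  linarith

/-- collapse of the interval `[u, v]` -/
noncomputable def psi (u v t : ℝ) : ℝ := max (t - v) 0 + min (t - u) 0

lemma psi_lip (u v : ℝ) (huv : u ≤ v) (s t : ℝ) : |psi u v s - psi u v t| ≤ |s - t| := by
  unfold psi
  rcases le_total (s - v) 0 with h1 | h1 <;> rcases le_total (s - u) 0 with h2 | h2 <;>
  rcases le_total (t - v) 0 with h3 | h3 <;> rcases le_total (t - u) 0 with h4 | h4 <;>
  simp only [max_eq_left, max_eq_right, min_eq_left, min_eq_right, h1, h2, h3, h4] <;>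
  rcases abs_cases (s - t) with h5 | h5 <;> rw [abs_le] <;> constructor <;> linarith [h5.1, h5.2]

lemma psi_left (u v t : ℝ) (huv : u ≤ v) (h : t ≤ u) : psi u v t = t - u := by
  unfold psi
  rw [max_eq_right (by linarith), min_eq_left (by linarith)]; ring

lemma psi_right (u v t : ℝ) (huv : u ≤ v) (h : v ≤ t) : psi u v t = t - v := by
  unfold psi
  rw [max_eq_left (by linarith), min_eq_right (by linarith)]; ring

lemma psi_mono (u v : ℝ) (s t : ℝ) (h : s ≤ t) : psi u v s ≤ psi u v t := by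
  unfold psi
  have h1 : max (s - v) 0 ≤ max (t - v) 0 := max_le_max (by linarith) le_rfl
  have h2 : min (s - u) 0 ≤ min (t - u) 0 := min_le_min (by linarith) le_rfl
  linarith

lemma psi_uIcc (u v a b c : ℝ) (h : c ∈ Set.uIcc a b) :
    psi u v c ∈ Set.uIcc (psi u v a) (psi u v b) := by
  rw [Set.mem_uIcc] at h ⊢
  rcases h with ⟨h1, h2⟩ | ⟨h1, h2⟩
  · left; exact ⟨psi_mono _ _ _ _ h1, psi_mono _ _ _ _ h2⟩
  · right; exact ⟨psi_mono _ _ _ _ h1, psi_mono _ _ _ _ h2⟩

end Pool.Agent.LawnZig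

namespace Pool.Agent.LawnZig

open Finset

/-- the segment passes over the whole interval `[u, u + g]` -/
def Cross (v : ℕ → ℂ) (u g : ℝ) (k : ℕ) : Prop :=
  ((v k).re ≤ u ∧ u + g ≤ (v (k + 1)).re) ∨ ((v (k + 1)).re ≤ u ∧ u + g ≤ (v k).re)

lemma cross_psi (v : ℕ → ℂ) (u g : ℝ) (hg : 0 ≤ g) (k : ℕ) (h : Cross v u g k) :
    |psi u (u + g) (v k).re - psi u (u + g) (v (k + 1)).re| + g
      = |(v k).re - (v (k + 1)).re| := by
  have hug : u ≤ u + g := by linarith
  rcases h with ⟨h1, h2⟩ | ⟨h1, h2⟩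
  · rw [psi_left _ _ _ hug h1, psi_right _ _ _ hug h2, abs_of_nonpos (by linarith),
      abs_of_nonpos (by linarith)]
    ring
  · rw [psi_left _ _ _ hug h1, psi_right _ _ _ hug h2, abs_of_nonneg (by linarith),
      abs_of_nonneg (by linarith)]
    ring

lemma abs_re_le (z w : ℂ) : |z.re - w.re| ≤ dist z w := by
  rw [Complex.dist_eq, ← Complex.sub_re]
  exact Complex.abs_re_le_norm _

lemma cross_of_mem (v : ℕ → ℂ) (u g : ℝ) (k : ℕ) (w : ℂ)
    (hw : w ∈ segment ℝ (v k) (v (k + 1)))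
    (h0 : ¬ (u < (v k).re ∧ (v k).re < u + g))
    (h1 : ¬ (u < (v (k + 1)).re ∧ (v (k + 1)).re < u + g))
    (h2 : u < w.re) (h3 : w.re < u + g) : Cross v u g k := by
  have h := seg_re hw
  rw [Set.mem_uIcc] at h
  unfold Cross
  rcases h with ⟨h4, h5⟩ | ⟨h4, h5⟩
  · left
    constructor
    · by_contra hc
      exact h0 ⟨not_le.1 hc, lt_of_le_of_lt h4 h3⟩
    · by_contra hc
      exact h1 ⟨lt_of_lt_of_le h2 h5, not_le.1 hc⟩
  · right
    constructor
    · by_contra hc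
      exact h1 ⟨not_le.1 hc, lt_of_le_of_lt h4 h3⟩
    · by_contra hc
      exact h0 ⟨lt_of_lt_of_le h2 h5, not_le.1 hc⟩

/-- total length in terms of the collapsed variation and two crossings -/
lemma len_two (m : ℕ) (v : ℕ → ℂ) (u g : ℝ) (hg : 0 ≤ g) (k0 k1 : ℕ) (h0 : k0 < m) (h1 : k1 < m)
    (hne : k0 ≠ k1) (c0 : Cross v u g k0) (c1 : Cross v u g k1) :
    ∑ k ∈ range m, |psi u (u + g) (v k).re - psi u (u + g) (v (k + 1)).re| + 2 * g ≤ len m v := by
  have hug : u ≤ u + g := by linarith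
  have h : ∑ k ∈ range m, (|psi u (u + g) (v k).re - psi u (u + g) (v (k + 1)).re|
      + ((if k = k0 then g else 0) + (if k = k1 then g else 0))) ≤ len m v := by
    unfold len
    apply Finset.sum_le_sum
    intro k _
    have hb := abs_re_le (v k) (v (k + 1))
    have hl := psi_lip u (u + g) hug (v k).re (v (k + 1)).re
    by_cases e0 : k = k0
    · have : ¬ k = k1 := fun h => hne (e0.symm.trans h)
      rw [if_pos e0, if_neg this, add_zero]
      subst e0
      rw [cross_psi v u g hg k c0]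
      exact hb
    · by_cases e1 : k = k1
      · rw [if_neg e0, if_pos e1, zero_add]
        subst e1
        rw [cross_psi v u g hg k c1]
        exact hb
      · rw [if_neg e0, if_neg e1]
        linarith
  rw [Finset.sum_add_distrib, Finset.sum_add_distrib, Finset.sum_ite_eq', Finset.sum_ite_eq',
    if_pos (mem_range.2 h0), if_pos (mem_range.2 h1)] at h
  linarith

/-- total length with one steep crossing -/
lemma len_one (m : ℕ) (v : ℕ → ℂ) (u g c : ℝ) (hg : 0 ≤ g) (hc : 0 ≤ c) (k0 : ℕ) (h0 : k0 < m)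
    (c0 : Cross v u g k0)
    (hs : |(v k0).re - (v (k0 + 1)).re| * (1 + c) ≤ dist (v k0) (v (k0 + 1))) :
    ∑ k ∈ range m, |psi u (u + g) (v k).re - psi u (u + g) (v (k + 1)).re| + (g + c * g)
      ≤ len m v := by
  have hug : u ≤ u + g := by linarith
  have h : ∑ k ∈ range m, (|psi u (u + g) (v k).re - psi u (u + g) (v (k + 1)).re|
      + (if k = k0 then g + c * g else 0)) ≤ len m v := by
    unfold len
    apply Finset.sum_le_sum
    intro k _
    have hb := abs_re_le (v k) (v (k + 1))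
    have hl := psi_lip u (u + g) hug (v k).re (v (k + 1)).re
    by_cases e0 : k = k0
    · rw [if_pos e0]
      subst e0
      have h3 := cross_psi v u g hg k c0
      have h4 : g ≤ |(v k).re - (v (k + 1)).re| := by
        rw [← h3]
        have := abs_nonneg (psi u (u + g) (v k).re - psi u (u + g) (v (k + 1)).re)
        linarith
      nlinarith
    · rw [if_neg e0]
      linarith
  rw [Finset.sum_add_distrib, Finset.sum_ite_eq', if_pos (mem_range.2 h0)] at h
  exact h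

/-- a point at distance at most one from a point of a line of slope `al` -/
lemma line_dist (q d al : ℝ) (h : d ^ 2 + (q - al * d) ^ 2 ≤ 1) : q ≤ 1 + al ^ 2 / 2 := by
  have h1 : q ^ 2 ≤ (1 + al ^ 2) * (d ^ 2 + (q - al * d) ^ 2) := by
    have e1 : (1 + al ^ 2) * (d ^ 2 + (q - al * d) ^ 2)
        = q ^ 2 + (d - al * (q - al * d)) ^ 2 := by ring
    rw [e1]
    have := sq_nonneg (d - al * (q - al * d))
    linarith
  have h2 : q ^ 2 ≤ 1 + al ^ 2 := by
    have : (1 + al ^ 2) * (d ^ 2 + (q - al * d) ^ 2) ≤ (1 + al ^ 2) * 1 :=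
      mul_le_mul_of_nonneg_left h (by positivity)
    linarith
  have h3 : q ^ 2 ≤ (1 + al ^ 2 / 2) ^ 2 := by
    have e1 : (1 + al ^ 2 / 2) ^ 2 = 1 + al ^ 2 + (al ^ 2) ^ 2 / 4 := by ring
    rw [e1]
    have := sq_nonneg (al ^ 2)
    linarith
  exact abs_le_of_sq_le_sq' h3 (by positivity) |>.2

theorem lower (N m : ℕ) (hN : 1500 * (m + 2) ^ 2 ≤ N) (v : ℕ → ℂ) (hm : Mows (hexagon N) m v)
    (hl : len m v ≤ 3) : False := by
  have hN33 : 33 ≤ N := by
    have : 1 ≤ (m + 2) ^ 2 := Nat.one_le_pow _ _ (by omega)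
    omega
  have hNR : (1500 : ℝ) * ((m : ℝ) + 2) ^ 2 ≤ N := by exact_mod_cast hN
  have hNpos : (0 : ℝ) < N := by
    have : (33 : ℝ) ≤ N := by exact_mod_cast hN33
    linarith
  have he := e_bound N hN33
  have hRb := R_bounds N hN33
  have hH := H_pos N
  set e : ℝ := 1 / (N : ℝ) ^ 2 with hedef
  have hHe : H N = 1 + 8 * e := by unfold H; rw [hedef]; ring
  have hRe : R N = 5 / 2 - 528 * e := by unfold R; rw [hedef]; ring
  have hm2 : (2 : ℝ) ≤ (m : ℝ) + 2 := by
    have : (0 : ℝ) ≤ m := Nat.cast_nonneg m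
    linarith
  obtain ⟨u, hu1, hu2, hgap⟩ := exists_gap m fun k => (v k).re
  set g : ℝ := 1 / ((m : ℝ) + 2) with hg
  have hgpos : 0 < g := by positivity
  have hg2 : g ≤ 1 / 2 := by
    rw [hg]; exact one_div_le_one_div_of_le (by norm_num) hm2
  -- the main numerical relation
  have hnum : e ≤ g ^ 4 / 2250000 := by
    have h1 : ((1500 : ℝ) * ((m : ℝ) + 2) ^ 2) ^ 2 ≤ (N : ℝ) ^ 2 :=
      pow_le_pow_left₀ (by positivity) hNR 2
    have h2 : e ≤ 1 / ((1500 : ℝ) * ((m : ℝ) + 2) ^ 2) ^ 2 :=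
      one_div_le_one_div_of_le (by positivity) h1
    have h3 : 1 / ((1500 : ℝ) * ((m : ℝ) + 2) ^ 2) ^ 2 = g ^ 4 / 2250000 := by
      rw [hg]; field_simp; norm_num
    rw [← h3]; exact h2
  have hg3p : 0 < g ^ 3 := by positivity
  have hg4 : g ^ 4 ≤ g ^ 3 / 2 := by
    have h1 : g ^ 3 * g ≤ g ^ 3 * (1 / 2) := mul_le_mul_of_nonneg_left hg2 hg3p.le
    have h2 : g ^ 4 = g ^ 3 * g := by ring
    linarith
  have hgsq : g ^ 2 ≤ 1 / 4 := by
    have h1 : g ^ 2 ≤ (1 / 2) ^ 2 := pow_le_pow_left₀ hgpos.le hg2 2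
    linarith
  have hg3 : g ^ 3 ≤ g / 4 := by
    have h1 : g * g ^ 2 ≤ g * (1 / 4) := mul_le_mul_of_nonneg_left hgsq hgpos.le
    have h2 : g ^ 3 = g * g ^ 2 := by ring
    linarith
  -- anchors
  obtain ⟨i1, hi1, w1, hw1, hd1⟩ := hm _ (left_mem N)
  obtain ⟨i2, hi2, w2, hw2, hd2⟩ := hm _ (right_mem N)
  have hx1 : w1.re ≤ -R N + 1 := by
    have := (abs_le.1 ((abs_re_le _ _).trans hd1)).1
    simp only at this
    linarith
  have hx2 : R N - 1 ≤ w2.re := by
    have := (abs_le.1 ((abs_re_le _ _).trans hd2)).2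
    simp only at this
    linarith
  set X : ℝ := ∑ k ∈ range m, |(v k).re - (v (k + 1)).re| with hX
  set Y : ℝ := ∑ k ∈ range m, |(v k).im - (v (k + 1)).im| with hY
  have hYn : 0 ≤ Y := Finset.sum_nonneg fun _ _ => abs_nonneg _
  have hmink : X ^ 2 + Y ^ 2 ≤ (len m v) ^ 2 := minkowski m v
  have hlen0 : 0 ≤ len m v := Finset.sum_nonneg fun _ _ => dist_nonneg
  have hXa : 2 * R N - 2 ≤ X := by
    have h1 := var_bound' (fun k => (v k).re) m i1 i2 hi1 hi2 w1.re w2.re (seg_re hw1) (seg_re hw2)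
    have h2 := (abs_le.1 h1).1
    linarith
  have hY2 : Y ^ 2 ≤ 6 * (1056 * e) := by
    have h1 : (len m v) ^ 2 ≤ 3 ^ 2 := pow_le_pow_left₀ hlen0 hl 2
    have h2 : (3 - 1056 * e) ≤ X := by rw [hRe] at hXa; linarith
    have h3 : (3 - 1056 * e) ^ 2 ≤ X ^ 2 := by
      apply pow_le_pow_left₀ _ h2
      linarith [he.2]
    have h4 : (3 - 1056 * e) ^ 2 = 9 - 6 * (1056 * e) + (1056 * e) ^ 2 := by ring
    have h5 := sq_nonneg (1056 * e)
    linarith
  have hYg : 2 * Y < g ^ 2 / 9 := by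
    have h1 : (2 * Y) ^ 2 < (g ^ 2 / 9) ^ 2 := by
      have h2 : 0 < g ^ 4 := by positivity
      have h3 : (2 * Y) ^ 2 = 4 * Y ^ 2 := by ring
      have h4 : (g ^ 2 / 9) ^ 2 = g ^ 4 / 81 := by ring
      rw [h3, h4]
      linarith
    exact lt_of_pow_lt_pow_left₀ 2 (by positivity) h1
  have hY1 : Y ≤ 1 := by linarith
  -- collapsed variation
  have hS : (2 * R N - 2) - g ≤
      ∑ k ∈ range m, |psi u (u + g) (v k).re - psi u (u + g) (v (k + 1)).re| := by
    have h1 := var_bound' (fun k => psi u (u + g) (v k).re) m i1 i2 hi1 hi2 _ _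
      (psi_uIcc u (u + g) _ _ _ (seg_re hw1)) (psi_uIcc u (u + g) _ _ _ (seg_re hw2))
    have h2 := (abs_le.1 h1).1
    rw [psi_left _ _ _ (by linarith) (by linarith), psi_right _ _ _ (by linarith) (by linarith)]
      at h2
    linarith
  have hR3 : 2 * R N - 2 = 3 - 1056 * e := by rw [hRe]; ring
  -- covering of the points above and below the gap
  have hcov : ∀ (s t : ℝ), (s = 1 ∨ s = -1) → u + g / 3 ≤ t → t ≤ u + 2 * g / 3 →
      ∃ k < m, Cross v u g k ∧ ∃ w ∈ segment ℝ (v k) (v (k + 1)),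
        (w.re - t) ^ 2 + (H N - s * w.im) ^ 2 ≤ 1 := by
    have hmem : ∀ (s t : ℝ), (s = 1 ∨ s = -1) → u + g / 3 ≤ t → t ≤ u + 2 * g / 3 →
        (⟨t, s * H N⟩ : ℂ) ∈ hexagon N := by
      intro s t hs h1 h2
      have ht : |t| ≤ 1 / 2 := by
        rw [abs_le]; constructor <;> linarith
      rcases hs with rfl | rfl
      · simpa using top_mem N t ht
      · simpa using bot_mem N t ht
    have hone : ∀ (s t : ℝ), (s = 1 ∨ s = -1) → u + g / 3 ≤ t → t ≤ u + 2 * g / 3 →
        ∃ k < m, ∃ w ∈ segment ℝ (v k) (v (k + 1)),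
          (w.re - t) ^ 2 + (H N - s * w.im) ^ 2 ≤ 1 := by
      intro s t hs h1 h2
      obtain ⟨k, hk, w, hw, hd⟩ := hm _ (hmem s t hs h1 h2)
      refine ⟨k, hk, w, hw, ?_⟩
      have h3 : (t - w.re) ^ 2 + (s * H N - w.im) ^ 2 ≤ 1 := by
        have h4 : dist (⟨t, s * H N⟩ : ℂ) w ^ 2 ≤ 1 ^ 2 := pow_le_pow_left₀ dist_nonneg hd 2
        rw [Complex.dist_eq, ← Complex.normSq_eq_norm_sq, Complex.normSq_apply] at h4
        simp only [Complex.sub_re, Complex.sub_im] at h4
        have h5 : (t - w.re) ^ 2 + (s * H N - w.im) ^ 2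
            = (t - w.re) * (t - w.re) + (s * H N - w.im) * (s * H N - w.im) := by ring
        rw [h5]
        linarith
      have hs2 : s ^ 2 = 1 := by rcases hs with rfl | rfl <;> norm_num
      have h5 : (H N - s * w.im) ^ 2 = (s * H N - w.im) ^ 2 := by
        have : (s * H N - w.im) ^ 2 = s ^ 2 * H N ^ 2 - 2 * s * H N * w.im + w.im ^ 2 := by ring
        rw [this]
        have : (H N - s * w.im) ^ 2 = H N ^ 2 - 2 * s * H N * w.im + s ^ 2 * w.im ^ 2 := by ring
        rw [this, hs2]; ring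
      rw [h5]
      have h6 : (w.re - t) ^ 2 = (t - w.re) ^ 2 := by ring
      rw [h6]
      exact h3
    intro s t hs h1 h2
    obtain ⟨k, hk, w, hw, hd⟩ := hone s t hs h1 h2
    refine ⟨k, hk, ?_, w, hw, hd⟩
    -- a point of the other side
    obtain ⟨k', hk', w', hw', hd'⟩ := hone (-s) t (by rcases hs with rfl | rfl <;> norm_num) h1 h2
    have hs' : 0 ≤ -s * w'.im := by
      have h6 : (H N - -s * w'.im) ^ 2 ≤ 1 := by
        have := sq_nonneg (w'.re - t)
        linarith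
      have h7 := (abs_le_of_sq_le_sq' (by simpa using h6 : (H N - -s * w'.im) ^ 2 ≤ 1 ^ 2)
        zero_le_one).2
      linarith
    have hv := var_bound' (fun k => (v k).im) m k k' hk hk' w.im w'.im (seg_im hw) (seg_im hw')
    have hsY : s * w.im ≤ Y := by
      have h8 : s * w.im ≤ |w.im - w'.im| + s * w'.im := by
        rcases hs with rfl | rfl
        · have := le_abs_self (w.im - w'.im); linarith
        · have := neg_abs_le (w.im - w'.im); linarith
      have h9 : |w.im - w'.im| ≤ Y := hv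
      linarith
    have hsq : (w.re - t) ^ 2 < (g / 3) ^ 2 := by
      have h10 : (1 - Y) ^ 2 ≤ (H N - s * w.im) ^ 2 :=
        pow_le_pow_left₀ (by linarith) (by linarith) 2
      have h13 : (1 - Y) ^ 2 = 1 - 2 * Y + Y ^ 2 := by ring
      have h14 : (g / 3) ^ 2 = g ^ 2 / 9 := by ring
      have h15 := sq_nonneg Y
      rw [h14]
      linarith
    have habs := abs_lt_of_sq_lt_sq hsq (by positivity)
    obtain ⟨h11, h12⟩ := abs_lt.1 habs
    exact cross_of_mem v u g k w hw (hgap k hk.le) (hgap (k + 1) hk) (by linarith) (by linarith)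
  -- uniqueness of the crossing segment
  have huniq : ∀ k0 k1, k0 < m → k1 < m → Cross v u g k0 → Cross v u g k1 → k0 = k1 := by
    intro k0 k1 h0 h1 c0 c1
    by_contra hne
    have h := len_two m v u g hgpos.le k0 k1 h0 h1 hne c0 c1
    linarith
  -- the crossing segment
  obtain ⟨k0, hk0, c0, -⟩ := hcov 1 (u + g / 3) (Or.inl rfl) le_rfl (by linarith)
  set x0 := (v k0).re with hx0
  set y0 := (v k0).im with hy0
  set x1' := (v (k0 + 1)).re with hx1'
  set y1' := (v (k0 + 1)).im with hy1'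
  have hdx : g ≤ |x0 - x1'| := by
    have := cross_psi v u g hgpos.le k0 c0
    have h2 := abs_nonneg (psi u (u + g) (v k0).re - psi u (u + g) (v (k0 + 1)).re)
    linarith
  have hdx0 : x1' - x0 ≠ 0 := by
    intro h
    rw [abs_sub_comm, h, abs_zero] at hdx
    linarith
  set al : ℝ := (y1' - y0) / (x1' - x0) with hal
  have hline : ∀ w ∈ segment ℝ (v k0) (v (k0 + 1)), w.im = y0 + al * (w.re - x0) := by
    rintro w ⟨c, d, hc, hd, hcd, rfl⟩
    have h1 : (c • v k0 + d • v (k0 + 1)).re = c * x0 + d * x1' := by simp [hx0, hx1']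
    have h2 : (c • v k0 + d • v (k0 + 1)).im = c * y0 + d * y1' := by simp [hy0, hy1']
    rw [h1, h2, hal]
    have hc' : c = 1 - d := by linarith
    rw [hc']
    field_simp
    ring
  -- the line is close to the top and to the bottom
  have hf : ∀ (s t : ℝ), (s = 1 ∨ s = -1) → u + g / 3 ≤ t → t ≤ u + 2 * g / 3 →
      H N - s * (y0 + al * (t - x0)) ≤ 1 + al ^ 2 / 2 := by
    intro s t hs h1 h2
    obtain ⟨k, hk, ck, w, hw, hd⟩ := hcov s t hs h1 h2
    have hkk : k = k0 := huniq k k0 hk hk0 ck c0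
    subst hkk
    rw [hline w hw] at hd
    have h3 := line_dist (H N - s * (y0 + al * (t - x0))) (w.re - t) (s * al) (by
      have : H N - s * (y0 + al * (t - x0)) - s * al * (w.re - t)
          = H N - s * (y0 + al * (w.re - x0)) := by ring
      rw [this]; exact hd)
    have hs2 : (s * al) ^ 2 = al ^ 2 := by rcases hs with rfl | rfl <;> ring
    rw [hs2] at h3
    exact h3
  have ha1 := hf 1 (u + g / 3) (Or.inl rfl) le_rfl (by linarith)
  have ha2 := hf (-1) (u + g / 3) (Or.inr rfl) le_rfl (by linarith)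
  have hb1 := hf 1 (u + 2 * g / 3) (Or.inl rfl) (by linarith) le_rfl
  have hb2 := hf (-1) (u + 2 * g / 3) (Or.inr rfl) (by linarith) le_rfl
  have hal1 : |al| * (g / 3) ≤ al ^ 2 - 16 * e := by
    rw [hHe] at ha1 ha2 hb1 hb2
    have h1 : |al * (g / 3)| ≤ al ^ 2 - 16 * e := by
      rw [abs_le]
      constructor <;> linarith
    rwa [abs_mul, abs_of_pos (by positivity : 0 < g / 3)] at h1
  have hal2 : g / 3 < |al| := by
    by_contra hc
    have hc' := not_lt.1 hc
    have h1 : al ^ 2 = |al| * |al| := by rw [← sq_abs]; ring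
    have h2 : |al| * |al| ≤ |al| * (g / 3) := mul_le_mul_of_nonneg_left hc' (abs_nonneg _)
    linarith [he.1]
  have hal3 : (g / 3) ^ 2 ≤ al ^ 2 := by
    rw [← sq_abs al]
    exact pow_le_pow_left₀ (by positivity) hal2.le 2
  -- the cost
  have hsteep : |(v k0).re - (v (k0 + 1)).re| * (1 + g ^ 2 / 27) ≤ dist (v k0) (v (k0 + 1)) := by
    rw [Complex.dist_eq, Complex.norm_def]
    apply Real.le_sqrt_of_sq_le
    rw [Complex.normSq_apply, Complex.sub_re, Complex.sub_im, mul_pow, sq_abs]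
    have h1 : y1' - y0 = al * (x1' - x0) := by rw [hal]; field_simp
    have h2 : ((v k0).im - (v (k0 + 1)).im) * ((v k0).im - (v (k0 + 1)).im)
        = al ^ 2 * (x0 - x1') ^ 2 := by
      have : (v k0).im - (v (k0 + 1)).im = -(al * (x1' - x0)) := by rw [← h1]; ring
      rw [this]; ring
    rw [h2]
    have h3 : (1 + g ^ 2 / 27) ^ 2 ≤ 1 + al ^ 2 := by
      have e1 : (1 + g ^ 2 / 27) ^ 2 = 1 + 2 * g ^ 2 / 27 + g ^ 2 * (g ^ 2 / 729) := by ring
      have e2 : g ^ 2 * (g ^ 2 / 729) ≤ g ^ 2 * (1 / 27) :=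
        mul_le_mul_of_nonneg_left (by linarith) (sq_nonneg g)
      have e3 : (g / 3) ^ 2 = g ^ 2 / 9 := by ring
      rw [e1]
      linarith
    have h4 : (x0 - x1') ^ 2 * (1 + g ^ 2 / 27) ^ 2 ≤ (x0 - x1') ^ 2 * (1 + al ^ 2) :=
      mul_le_mul_of_nonneg_left h3 (sq_nonneg _)
    have h5 : (x0 - x1') * (x0 - x1') + al ^ 2 * (x0 - x1') ^ 2
        = (x0 - x1') ^ 2 * (1 + al ^ 2) := by ring
    linarith
  have hfinal := len_one m v u g (g ^ 2 / 27) hgpos.le (by positivity) k0 hk0 c0 hsteep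
  have hcube : 1056 * e < g ^ 3 / 27 := by linarith
  have : g ^ 2 / 27 * g = g ^ 3 / 27 := by ring
  rw [this] at hfinal
  linarith

end Pool.Agent.LawnZig
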