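import Pool.Agent.LawnZig.Defs

/-!
# The hexagon: inequalities and special points
-/

namespace Pool.Agent.LawnZig

/-- real version of the half height -/
noncomputable def H (N : ℕ) : ℝ := 1 + 8 / (N : ℝ) ^ 2

/-- real version of the half width -/
noncomputable def R (N : ℕ) : ℝ := 5 / 2 - 528 / (N : ℝ) ^ 2

lemma hh_cast (N : ℕ) : ((hh N : ℚ) : ℝ) = H N := by
  unfold hh H; push_cast; ring

lemma hw_cast (N : ℕ) : ((hw N : ℚ) : ℝ) = R N := by
  unfold hw R; push_cast; ring

/-- the set given by the inequalities -/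
def ineq (N : ℕ) : Set ℂ :=
  {z | |z.im| ≤ H N ∧ H N * |z.re| + (R N - 1 / 2) * |z.im| ≤ H N * R N}

lemma H_pos (N : ℕ) : 1 ≤ H N := by
  unfold H
  have : 0 ≤ 8 / (N : ℝ) ^ 2 := by positivity
  linarith

lemma e_bound (N : ℕ) (hN : 33 ≤ N) : 0 < 1 / (N : ℝ) ^ 2 ∧ 1 / (N : ℝ) ^ 2 ≤ 1 / 1089 := by
  have h1 : (33 : ℝ) ≤ N := by exact_mod_cast hN
  constructor
  · positivity
  · apply one_div_le_one_div_of_le (by norm_num)
    nlinarith

lemma R_bounds (N : ℕ) (hN : 33 ≤ N) : 2 ≤ R N ∧ R N ≤ 5 / 2 := by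
  have h := e_bound N hN
  have e : 528 / (N : ℝ) ^ 2 = 528 * (1 / (N : ℝ) ^ 2) := by ring
  unfold R
  rw [e]
  constructor <;> linarith [h.1, h.2]

lemma convex_ineq (N : ℕ) (hN : 33 ≤ N) : Convex ℝ (ineq N) := by
  have hH := H_pos N
  have hR := (R_bounds N hN).1
  intro z hz w hw a b ha hb hab
  obtain ⟨hz1, hz2⟩ := hz
  obtain ⟨hw1, hw2⟩ := hw
  have him : |(a • z + b • w).im| ≤ a * |z.im| + b * |w.im| := by
    have : (a • z + b • w).im = a * z.im + b * w.im := by simp
    rw [this]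
    calc |a * z.im + b * w.im| ≤ |a * z.im| + |b * w.im| := abs_add_le _ _
      _ = a * |z.im| + b * |w.im| := by rw [abs_mul, abs_mul, abs_of_nonneg ha, abs_of_nonneg hb]
  have hre : |(a • z + b • w).re| ≤ a * |z.re| + b * |w.re| := by
    have : (a • z + b • w).re = a * z.re + b * w.re := by simp
    rw [this]
    calc |a * z.re + b * w.re| ≤ |a * z.re| + |b * w.re| := abs_add_le _ _
      _ = a * |z.re| + b * |w.re| := by rw [abs_mul, abs_mul, abs_of_nonneg ha, abs_of_nonneg hb]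
  constructor
  · calc |(a • z + b • w).im| ≤ a * |z.im| + b * |w.im| := him
      _ ≤ a * H N + b * H N := by gcongr
      _ = H N := by rw [← add_mul, hab, one_mul]
  · calc H N * |(a • z + b • w).re| + (R N - 1 / 2) * |(a • z + b • w).im|
        ≤ H N * (a * |z.re| + b * |w.re|) + (R N - 1 / 2) * (a * |z.im| + b * |w.im|) := by
          gcongr
          linarith
      _ = a * (H N * |z.re| + (R N - 1 / 2) * |z.im|)
          + b * (H N * |w.re| + (R N - 1 / 2) * |w.im|) := by ring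
      _ ≤ a * (H N * R N) + b * (H N * R N) := by gcongr
      _ = H N * R N := by rw [← add_mul, hab, one_mul]

lemma hexagon_subset (N : ℕ) (hN : 33 ≤ N) : hexagon N ⊆ ineq N := by
  have hH := H_pos N
  have hR := (R_bounds N hN).1
  apply convexHull_min _ (convex_ineq N hN)
  rintro _ ⟨i, rfl⟩
  fin_cases i <;>
    simp [vert, ineq, hh_cast, hw_cast, abs_of_nonneg, abs_neg] <;>
    first
      | (constructor
         · rw [abs_of_nonneg (by linarith)]
         · rw [abs_of_nonneg (by linarith)]; nlinarith)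
      | (constructor
         · linarith
         · rw [abs_of_nonneg (by linarith)])

end Pool.Agent.LawnZig

namespace Pool.Agent.LawnZig

lemma vert_mem (N : ℕ) (i : Fin 6) :
    (⟨((vert N i).1 : ℝ), ((vert N i).2 : ℝ)⟩ : ℂ) ∈ hexagon N :=
  subset_convexHull ℝ _ ⟨i, rfl⟩

lemma right_mem (N : ℕ) : (⟨R N, 0⟩ : ℂ) ∈ hexagon N := by
  have h := vert_mem N 0
  simpa [vert, hw_cast] using h

lemma left_mem (N : ℕ) : (⟨-R N, 0⟩ : ℂ) ∈ hexagon N := by
  have h := vert_mem N 3
  simpa [vert, hw_cast] using h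

lemma top_mem (N : ℕ) (x : ℝ) (hx : |x| ≤ 1 / 2) : (⟨x, H N⟩ : ℂ) ∈ hexagon N := by
  have h1 := vert_mem N 1
  have h2 := vert_mem N 2
  have hc : Convex ℝ (hexagon N) := convex_convexHull ℝ _
  obtain ⟨hx1, hx2⟩ := abs_le.1 hx
  have h := hc h1 h2 (a := x + 1 / 2) (b := 1 / 2 - x) (by linarith) (by linarith) (by ring)
  convert h using 1
  apply Complex.ext
  · simp [vert]
    ring
  · simp [vert, hh_cast]
    ring

lemma bot_mem (N : ℕ) (x : ℝ) (hx : |x| ≤ 1 / 2) : (⟨x, -H N⟩ : ℂ) ∈ hexagon N := by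
  have h1 := vert_mem N 5
  have h2 := vert_mem N 4
  have hc : Convex ℝ (hexagon N) := convex_convexHull ℝ _
  obtain ⟨hx1, hx2⟩ := abs_le.1 hx
  have h := hc h1 h2 (a := x + 1 / 2) (b := 1 / 2 - x) (by linarith) (by linarith) (by ring)
  convert h using 1
  apply Complex.ext
  · simp [vert]
    ring
  · simp [vert, hh_cast]
    ring

end Pool.Agent.LawnZig
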