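import Pool.Agent.LawnZig.Region

/-!
# The zigzag curve mows the hexagon
-/

namespace Pool.Agent.LawnZig

/-- amplitude -/
noncomputable def A (N : ℕ) : ℝ := 16 / (N : ℝ) ^ 2

/-- The zigzag curve. -/
noncomputable def zig (N : ℕ) (i : ℕ) : ℂ :=
  if i = 0 then ⟨-(R N - 1), 0⟩
  else if i = 1 then ⟨-1, 0⟩
  else if i ≤ 2 * N + 2 then ⟨-1 + ((i - 2 : ℕ) : ℝ) / N, (-1) ^ (i - 2) * A N⟩
  else if i = 2 * N + 3 then ⟨1, 0⟩
  else ⟨R N - 1, 0⟩

lemma zig_zero (N : ℕ) : zig N 0 = ⟨-(R N - 1), 0⟩ := by simp [zig]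

lemma zig_one (N : ℕ) : zig N 1 = ⟨-1, 0⟩ := by simp [zig]

lemma zig_mid (N : ℕ) (j : ℕ) (hj : j ≤ 2 * N) :
    zig N (j + 2) = ⟨-1 + (j : ℝ) / N, (-1) ^ j * A N⟩ := by
  simp [zig, hj]

lemma zig_a (N : ℕ) : zig N (2 * N + 3) = ⟨1, 0⟩ := by simp [zig]

lemma zig_b (N : ℕ) : zig N (2 * N + 4) = ⟨R N - 1, 0⟩ := by simp [zig]

lemma dist_mk (a b c d : ℝ) : dist (⟨a, b⟩ : ℂ) ⟨c, d⟩ = Real.sqrt ((a - c) ^ 2 + (b - d) ^ 2) :=
  Complex.dist_mk a b c d

lemma dist_le_of_sq (a b c d e : ℝ) (he : 0 ≤ e) (h : (a - c) ^ 2 + (b - d) ^ 2 ≤ e ^ 2) :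
    dist (⟨a, b⟩ : ℂ) ⟨c, d⟩ ≤ e := by
  rw [dist_mk]
  exact Real.sqrt_le_iff.2 ⟨he, h⟩

lemma hseg (a b t : ℝ) (h1 : a ≤ t) (h2 : t ≤ b) :
    (⟨t, 0⟩ : ℂ) ∈ segment ℝ (⟨a, 0⟩ : ℂ) ⟨b, 0⟩ := by
  have h : t ∈ segment ℝ a b := by
    rw [segment_eq_Icc (le_trans h1 h2)]; exact ⟨h1, h2⟩
  obtain ⟨c, d, hc, hd, hcd, ht⟩ := h
  refine ⟨c, d, hc, hd, hcd, ?_⟩
  apply Complex.ext
  · simpa using ht
  · simp

lemma zig_mows (N : ℕ) (hN : 33 ≤ N) : Mows (hexagon N) (2 * N + 4) (zig N) := by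
  have hH := H_pos N
  have hR := R_bounds N hN
  have he := e_bound N hN
  have hNpos : (0 : ℝ) < N := by
    have : (33 : ℝ) ≤ N := by exact_mod_cast hN
    linarith
  set e : ℝ := 1 / (N : ℝ) ^ 2 with hedef
  have hHe : H N = 1 + 8 * e := by unfold H; rw [hedef]; ring
  have hRe : R N = 5 / 2 - 528 * e := by unfold R; rw [hedef]; ring
  have hAe : A N = 16 * e := by unfold A; rw [hedef]; ring
  intro z hz
  obtain ⟨x, y⟩ := z
  obtain ⟨h1, h2⟩ := hexagon_subset N hN hz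
  simp only at h1 h2
  by_cases hx : |x| ≤ 1
  · -- middle part
    obtain ⟨hx1, hx2⟩ := abs_le.1 hx
    -- choose the index
    have key : ∀ b : Bool, ∃ j : ℕ, j ≤ 2 * N ∧ (j % 2 = if b then 1 else 0) ∧
        |x - (-1 + (j : ℝ) / N)| ≤ 1 / N := by
      intro b
      have h0 : 0 ≤ (x + 1) * N := mul_nonneg (by linarith) hNpos.le
      set j0 := ⌊(x + 1) * N⌋₊ with hj0
      have hf1 : (j0 : ℝ) ≤ (x + 1) * N := Nat.floor_le h0
      have hf2 : (x + 1) * N < j0 + 1 := Nat.lt_floor_add_one _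
      have hle : j0 ≤ 2 * N := by
        have : (j0 : ℝ) ≤ 2 * N := le_trans hf1 (by nlinarith)
        exact_mod_cast this
      have hdist : ∀ j : ℕ, (x + 1) * N - 1 ≤ j → (j : ℝ) ≤ (x + 1) * N + 1 →
          |x - (-1 + (j : ℝ) / N)| ≤ 1 / N := by
        intro j hj1 hj2
        have : x - (-1 + (j : ℝ) / N) = ((x + 1) * N - j) / N := by
          field_simp
          ring
        rw [this, abs_div, abs_of_pos hNpos]
        apply div_le_div_of_nonneg_right _ hNpos.le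
        rw [abs_le]
        constructor <;> linarith
      by_cases hp : j0 % 2 = if b then 1 else 0
      · exact ⟨j0, hle, hp, hdist j0 (by linarith) (by linarith)⟩
      · by_cases hl : j0 + 1 ≤ 2 * N
        · refine ⟨j0 + 1, hl, ?_, hdist _ ?_ ?_⟩
          · cases b <;> simp at hp ⊢ <;> omega
          · push_cast; linarith
          · push_cast; linarith
        · have hj : j0 = 2 * N := by omega
          refine ⟨2 * N - 1, by omega, ?_, hdist _ ?_ ?_⟩
          · cases b <;> simp at hp ⊢ <;> omega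
          · have : ((2 * N - 1 : ℕ) : ℝ) = 2 * N - 1 := by
              rw [Nat.cast_sub (by omega)]; push_cast; ring
            rw [this]
            have : (x + 1) * N ≤ 2 * N := by nlinarith
            linarith
          · have : ((2 * N - 1 : ℕ) : ℝ) = 2 * N - 1 := by
              rw [Nat.cast_sub (by omega)]; push_cast; ring
            rw [this]
            have : (j0 : ℝ) = 2 * N := by rw [hj]; push_cast; ring
            linarith
    have hcov : ∀ (s : ℝ) (j : ℕ), j ≤ 2 * N → (-1 : ℝ) ^ j = s → |y| = s * y → s ^ 2 = 1 →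
        |x - (-1 + (j : ℝ) / N)| ≤ 1 / N →
        ∃ i < 2 * N + 4, ∃ w ∈ segment ℝ (zig N i) (zig N (i + 1)), dist (⟨x, y⟩ : ℂ) w ≤ 1 := by
      intro s j hj hs hy hs2 hd
      refine ⟨j + 2, by omega, zig N (j + 2), left_mem_segment ℝ _ _, ?_⟩
      rw [zig_mid N j hj, hs]
      apply dist_le_of_sq _ _ _ _ _ zero_le_one
      have hd2 : (x - (-1 + (j : ℝ) / N)) ^ 2 ≤ e := by
        have := sq_le_sq' (neg_le_of_abs_le hd) (le_of_abs_le hd)
        calc (x - (-1 + (j : ℝ) / N)) ^ 2 ≤ (1 / (N : ℝ)) ^ 2 := this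
          _ = e := by rw [hedef]; ring
      have hy2 : (y - s * A N) ^ 2 = (|y| - A N) ^ 2 := by
        rw [hy]
        have : (s * y - A N) ^ 2 = s ^ 2 * y ^ 2 - 2 * s * y * A N + A N ^ 2 := by ring
        rw [this]
        have h3 : (y - s * A N) ^ 2 = y ^ 2 - 2 * s * y * A N + s ^ 2 * A N ^ 2 := by ring
        rw [h3, hs2]; ring
      rw [hy2]
      have hyn := abs_nonneg y
      have : (|y| - A N) ^ 2 ≤ (1 - 8 * e) ^ 2 := by
        apply sq_le_sq'
        · rw [hAe]; linarith [he.1, he.2]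
        · rw [hAe, hHe] at *; linarith [he.1, he.2]
      nlinarith [he.1, he.2]
    by_cases hy : 0 ≤ y
    · obtain ⟨j, hj1, hj2, hj3⟩ := key false
      refine hcov 1 j hj1 ?_ (by rw [abs_of_nonneg hy, one_mul]) (by norm_num) hj3
      simp only [Bool.false_eq_true, if_false] at hj2
      exact Even.neg_one_pow (Nat.even_iff.2 hj2)
    · obtain ⟨j, hj1, hj2, hj3⟩ := key true
      refine hcov (-1) j hj1 ?_ (by rw [abs_of_neg (not_le.1 hy)]; ring) (by norm_num) hj3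
      simp only [if_true] at hj2
      exact Odd.neg_one_pow (Nat.odd_iff.2 hj2)
  · have hx1 : 1 < |x| := not_le.1 hx
    have hy1 : |y| * (R N - 1 / 2) ≤ H N * (R N - |x|) := by nlinarith
    have hRx : 0 ≤ R N - |x| := by
      by_contra hc
      have hc' : R N - |x| < 0 := not_le.1 hc
      have : 0 ≤ |y| * (R N - 1 / 2) := mul_nonneg (abs_nonneg y) (by linarith)
      nlinarith
    -- the slope is at most one
    have hslope : H N ≤ R N - 1 / 2 := by rw [hHe, hRe]; linarith [he.1, he.2]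
    have hy2 : |y| ≤ R N - |x| := by
      have h3 : H N * (R N - |x|) ≤ (R N - 1 / 2) * (R N - |x|) :=
        mul_le_mul_of_nonneg_right hslope hRx
      have h4 : |y| * (R N - 1 / 2) ≤ (R N - |x|) * (R N - 1 / 2) := by linarith
      exact le_of_mul_le_mul_right h4 (by linarith)
    have hy3 : |y| ≤ 1 := by
      have h3 : |y| * (R N - 1 / 2) ≤ H N * (R N - 1) := by nlinarith
      have h4 : H N * (R N - 1) ≤ 1 * (R N - 1 / 2) := by
        rw [hHe, hRe]
        nlinarith [he.1, he.2]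
      exact le_of_mul_le_mul_right (le_trans h3 h4) (by linarith)
    -- a point on the curve
    have hfin : ∀ s : ℝ, s ^ 2 = 1 → x = s * |x| → ∀ t : ℝ, t = min |x| (R N - 1) →
        dist (⟨x, y⟩ : ℂ) ⟨s * t, 0⟩ ≤ 1 := by
      intro s hs hxs t ht
      apply dist_le_of_sq _ _ _ _ _ zero_le_one
      have h5 : (x - s * t) ^ 2 = (|x| - t) ^ 2 := by
        have : x - s * t = s * (|x| - t) := by rw [mul_sub, ← hxs]
        rw [this, mul_pow, hs, one_mul]
      rw [h5, sub_zero, ← sq_abs y]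
      by_cases hc : |x| ≤ R N - 1
      · rw [ht, min_eq_left hc]
        have := abs_nonneg y
        nlinarith
      · rw [ht, min_eq_right (not_le.1 hc).le]
        have h6 := not_le.1 hc
        have := abs_nonneg y
        nlinarith
    have hR1 : 1 ≤ R N - 1 := by linarith
    have ht1 : 1 ≤ min |x| (R N - 1) := le_min hx1.le hR1
    have ht2 : min |x| (R N - 1) ≤ R N - 1 := min_le_right _ _
    by_cases hpos : 0 ≤ x
    · have hax : |x| = x := abs_of_nonneg hpos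
      refine ⟨2 * N + 3, by omega, ⟨1 * min |x| (R N - 1), 0⟩, ?_,
        hfin 1 (by norm_num) (by rw [one_mul, hax]) _ rfl⟩
      rw [zig_a, show 2 * N + 3 + 1 = 2 * N + 4 from rfl, zig_b, one_mul]
      exact hseg _ _ _ ht1 ht2
    · have hax : |x| = -x := abs_of_neg (not_le.1 hpos)
      refine ⟨0, by omega, ⟨-1 * min |x| (R N - 1), 0⟩, ?_,
        hfin (-1) (by norm_num) (by rw [hax]; ring) _ rfl⟩
      rw [zig_zero, show 0 + 1 = 1 from rfl, zig_one]
      exact hseg _ _ _ (by linarith) (by linarith)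

lemma dist_mid (N : ℕ) (hN : 33 ≤ N) (j : ℕ) (hj : j < 2 * N) :
    dist (zig N (j + 2)) (zig N (j + 3)) ≤ 1 / N + 512 / (N : ℝ) ^ 3 := by
  have hNpos : (0 : ℝ) < N := by
    have : (33 : ℝ) ≤ N := by exact_mod_cast hN
    linarith
  rw [zig_mid N j hj.le, show j + 3 = (j + 1) + 2 from rfl, zig_mid N (j + 1) hj]
  apply dist_le_of_sq
  · positivity
  · have h1 : (-1 : ℝ) + (j : ℝ) / N - (-1 + ((j + 1 : ℕ) : ℝ) / N) = -(1 / N) := by
      push_cast; field_simp; ring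
    have h2 : ((-1 : ℝ) ^ j * A N - (-1) ^ (j + 1) * A N) ^ 2 = 4 * A N ^ 2 := by
      have h3 : ((-1 : ℝ) ^ j) ^ 2 = 1 := by
        rw [← pow_mul, mul_comm, pow_mul]; simp
      have : (-1 : ℝ) ^ j * A N - (-1) ^ (j + 1) * A N = (-1) ^ j * (2 * A N) := by
        rw [pow_succ]; ring
      rw [this, mul_pow, h3]; ring
    rw [h1, h2]
    unfold A
    have h4 : (1 / (N : ℝ) + 512 / (N : ℝ) ^ 3) ^ 2
        = (-(1 / (N : ℝ))) ^ 2 + 4 * (16 / (N : ℝ) ^ 2) ^ 2 + (512 / (N : ℝ) ^ 3) ^ 2 := by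
      field_simp
      ring
    rw [h4]
    have : 0 ≤ (512 / (N : ℝ) ^ 3) ^ 2 := by positivity
    linarith

lemma zig_len (N : ℕ) (hN : 33 ≤ N) : len (2 * N + 4) (zig N) ≤ 3 := by
  have hNpos : (0 : ℝ) < N := by
    have : (33 : ℝ) ≤ N := by exact_mod_cast hN
    linarith
  have hR := R_bounds N hN
  have hA : 0 ≤ A N := by unfold A; positivity
  have h0 : dist (zig N 0) (zig N 1) ≤ R N - 2 := by
    rw [zig_zero, zig_one]
    apply dist_le_of_sq _ _ _ _ _ (by linarith [hR.1])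
    apply le_of_eq; ring
  have h1 : dist (zig N 1) (zig N 2) ≤ A N := by
    rw [zig_one, show (2 : ℕ) = 0 + 2 from rfl, zig_mid N 0 (by omega)]
    apply dist_le_of_sq _ _ _ _ _ hA
    apply le_of_eq; simp
  have h2 : dist (zig N (2 * N + 2)) (zig N (2 * N + 3)) ≤ A N := by
    rw [zig_a, zig_mid N (2 * N) le_rfl]
    apply dist_le_of_sq _ _ _ _ _ hA
    have : (-1 : ℝ) + ((2 * N : ℕ) : ℝ) / N - 1 = 0 := by
      push_cast; field_simp; ring
    rw [this]
    simp
  have h3 : dist (zig N (2 * N + 3)) (zig N (2 * N + 4)) ≤ R N - 2 := by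
    rw [zig_a, zig_b]
    apply dist_le_of_sq _ _ _ _ _ (by linarith [hR.1])
    apply le_of_eq; ring
  have h4 : ∑ j ∈ Finset.range (2 * N), dist (zig N (j + 2)) (zig N (j + 3))
      ≤ ∑ _j ∈ Finset.range (2 * N), (1 / (N : ℝ) + 512 / (N : ℝ) ^ 3) :=
    Finset.sum_le_sum fun j hj => dist_mid N hN j (Finset.mem_range.1 hj)
  rw [Finset.sum_const, Finset.card_range, nsmul_eq_mul] at h4
  have h5 : len (2 * N + 4) (zig N)
      = dist (zig N 0) (zig N 1) + dist (zig N 1) (zig N 2)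
        + ∑ j ∈ Finset.range (2 * N), dist (zig N (j + 2)) (zig N (j + 3))
        + dist (zig N (2 * N + 2)) (zig N (2 * N + 3))
        + dist (zig N (2 * N + 3)) (zig N (2 * N + 4)) := by
    unfold len
    rw [show 2 * N + 4 = (2 * N + 2) + 1 + 1 from rfl, Finset.sum_range_succ,
      Finset.sum_range_succ, Finset.sum_range_succ', Finset.sum_range_succ']
    ring
  have h6 : ((2 * N : ℕ) : ℝ) * (1 / (N : ℝ) + 512 / (N : ℝ) ^ 3) = 2 + 1024 / (N : ℝ) ^ 2 := by
    push_cast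
    field_simp
    ring
  rw [h6] at h4
  rw [h5]
  have h7 : 2 * (R N - 2) + 2 * A N + (2 + 1024 / (N : ℝ) ^ 2) = 3 := by
    unfold R A
    ring
  linarith

end Pool.Agent.LawnZig
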